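import Mathlib

/-!
# Smooth representations of Galois groups and the smallest field over which they are trivial
-/

set_option autoImplicit false
set_option linter.unusedSectionVars false

open IntermediateField Module

namespace Pool.Agent.Q280.SF

variable {k Ω : Type} [Field k] [Field Ω] [Algebra k Ω] [IsGalois k Ω] {R V : Type} [Field R] [AddCommGroup V] [Module R V]
  (ρ : Representation R (Ω ≃ₐ[k] Ω) V) (W : Submodule R V)

/-- the vectors of `W` fixed by the automorphisms over `K` -/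
def fx (K : IntermediateField k Ω) : Submodule R V where
  carrier := {v | v ∈ W ∧ ∀ g ∈ K.fixingSubgroup, ρ g v = v}
  add_mem' := fun ⟨h1, h2⟩ ⟨h3, h4⟩ => ⟨W.add_mem h1 h3, fun g hg => by rw [map_add, h2 g hg, h4 g hg]⟩
  zero_mem' := ⟨W.zero_mem, fun g _ => map_zero _⟩
  smul_mem' := fun c v ⟨h1, h2⟩ => ⟨W.smul_mem c h1, fun g hg => by rw [map_smul, h2 g hg]⟩

variable {ρ W}

theorem mem_fx {K : IntermediateField k Ω} {v : V} : v ∈ fx ρ W K ↔ v ∈ W ∧ ∀ g ∈ K.fixingSubgroup, ρ g v = v := Iff.rfl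

theorem fx_mono {K L : IntermediateField k Ω} (h : K ≤ L) : fx ρ W K ≤ fx ρ W L := fun _ hv =>
  ⟨hv.1, fun g hg => hv.2 g (fixingSubgroup_le h hg)⟩

theorem fx_le (K : IntermediateField k Ω) : fx ρ W K ≤ W := fun _ hv => hv.1

/-- the stabilizer -/
def stb (ρ : Representation R (Ω ≃ₐ[k] Ω) V) (v : V) : Subgroup (Ω ≃ₐ[k] Ω) where
  carrier := {g | ρ g v = v}
  mul_mem' := fun {g h} hg hh => by
    change ρ (g * h) v = v
    rw [map_mul]
    change ρ g (ρ h v) = v
    rw [hh, hg]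
  one_mem' := by
    change ρ 1 v = v
    rw [map_one]
    rfl
  inv_mem' := fun {g} hg => by
    change ρ g⁻¹ v = v
    have h1 : ρ g⁻¹ (ρ g v) = v := by
      rw [← Module.End.mul_apply, ← map_mul, inv_mul_cancel, map_one]
      rfl
    rwa [show ρ g v = v from hg] at h1

/-- all vectors of `W` are fixed by the automorphisms over some finite extension -/
def Smooth (ρ : Representation R (Ω ≃ₐ[k] Ω) V) (W : Submodule R V) : Prop :=
  ∀ v ∈ W, ∃ F : IntermediateField k Ω, FiniteDimensional k F ∧ v ∈ fx ρ W F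

variable (hs : Smooth ρ W)

include hs

/-- the field of a vector -/
theorem exists_field {v : V} (hv : v ∈ W) : ∃ F : IntermediateField k Ω, ∀ g, g ∈ F.fixingSubgroup ↔ ρ g v = v := by
  obtain ⟨F, hF, _, hvF⟩ := hs v hv
  have h1 : IsOpen (stb ρ v : Set (Ω ≃ₐ[k] Ω)) := Subgroup.isOpen_mono (H₁ := F.fixingSubgroup) (fun g hg => hvF g hg)
    (fixingSubgroup_isOpen F)
  have h2 := Subgroup.isClosed_of_isOpen _ h1
  have h3 := InfiniteGalois.fixingSubgroup_fixedField (⟨stb ρ v, h2⟩ : ClosedSubgroup (Ω ≃ₐ[k] Ω))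
  refine ⟨fixedField (stb ρ v), fun g => ?_⟩
  have h4 : (fixedField (stb ρ v)).fixingSubgroup = stb ρ v := h3
  rw [h4]
  exact Iff.rfl

theorem fx_inf (K L : IntermediateField k Ω) : fx ρ W (K ⊓ L) = fx ρ W K ⊓ fx ρ W L := by
  refine le_antisymm (le_inf (fx_mono inf_le_left) (fx_mono inf_le_right)) ?_
  rintro v ⟨h1, h2⟩
  obtain ⟨F, hF⟩ := exists_field hs h1.1
  have h3 : ∀ M : IntermediateField k Ω, v ∈ fx ρ W M → F ≤ M := by
    intro M hM
    rw [← InfiniteGalois.fixedField_fixingSubgroup F, ← InfiniteGalois.fixedField_fixingSubgroup M]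
    exact fixedField_antitone fun g hg => (hF g).mpr (hM.2 g hg)
  refine ⟨h1.1, fun g hg => (hF g).mp (fixingSubgroup_le (le_inf (h3 K h1) (h3 L h2)) hg)⟩

variable (ρ W)

omit hs in
/-- the automorphisms which act trivially on `W` -/
def ker : Subgroup (Ω ≃ₐ[k] Ω) := ⨅ v : W, stb ρ (v : V)

omit hs in
/-- the smallest field -/
noncomputable def mf : IntermediateField k Ω := fixedField (ker ρ W)

variable {ρ W}

omit hs in
theorem mem_ker {g : Ω ≃ₐ[k] Ω} : g ∈ ker ρ W ↔ ∀ v ∈ W, ρ g v = v := by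
  unfold ker
  rw [Subgroup.mem_iInf]
  exact ⟨fun h v hv => h ⟨v, hv⟩, fun h v => h v v.2⟩

theorem le_fx_iff {M : IntermediateField k Ω} : W ≤ fx ρ W M ↔ mf ρ W ≤ M := by
  constructor
  · intro h
    rw [← InfiniteGalois.fixedField_fixingSubgroup M]
    exact fixedField_antitone fun g hg => mem_ker.mpr fun v hv => (h hv).2 g hg
  · intro h v hv
    refine fx_mono h ⟨hv, fun g hg => ?_⟩
    obtain ⟨F, hF⟩ := exists_field hs hv
    refine (hF g).mp (fixingSubgroup_le ?_ hg)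
    rw [← InfiniteGalois.fixedField_fixingSubgroup F]
    exact fixedField_antitone fun g hg => (hF g).mpr (mem_ker.mp hg v hv)

omit hs in
/-- the smallest field is normal -/
theorem mf_normal (hW : ∀ g, ∀ v ∈ W, ρ g v ∈ W) : Normal k (mf ρ W) := by
  rw [normal_iff_forall_map_le]
  rintro σ _ ⟨x, hx, rfl⟩
  obtain ⟨τ, hτ⟩ : ∃ τ : Ω ≃ₐ[k] Ω, ∀ y, τ y = σ y :=
    ⟨AlgEquiv.ofBijective σ (Algebra.IsAlgebraic.algHom_bijective σ), fun _ => rfl⟩
  rintro ⟨g, hg⟩
  change g (σ x) = σ x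
  have h1 : τ⁻¹ * g * τ ∈ ker ρ W := by
    rw [mem_ker] at hg ⊢
    intro v hv
    have h2 : ρ (τ⁻¹ * g * τ) v = ρ τ⁻¹ (ρ g (ρ τ v)) := by
      rw [map_mul, map_mul]
      rfl
    rw [h2, hg _ (hW τ v hv)]
    have h3 : ρ τ⁻¹ (ρ τ v) = v := by
      rw [← Module.End.mul_apply, ← map_mul, inv_mul_cancel, map_one]
      rfl
    exact h3
  have h2 : (τ⁻¹ * g * τ) x = x := hx ⟨_, h1⟩
  have h3 : g (τ x) = τ x := by
    have h4 := congrArg τ h2
    have h5 : τ ((τ⁻¹ * g * τ) x) = g (τ x) := by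
      rw [AlgEquiv.mul_apply, AlgEquiv.mul_apply]
      exact AlgEquiv.apply_symm_apply τ _
    rw [← h5, h4]
  rw [hτ] at h3
  exact h3

/-- the dimension -/
noncomputable def dm (ρ : Representation R (Ω ≃ₐ[k] Ω) V) (W : Submodule R V) (K : IntermediateField k Ω) : ℕ :=
  finrank R (fx ρ W K)

variable (hf : ∀ F : IntermediateField k Ω, FiniteDimensional k F → FiniteDimensional R (fx ρ W F))

include hf

/-- **the fields which carry all dimensions** -/
theorem dm_iff (M : IntermediateField k Ω) :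
    (∀ K : IntermediateField k Ω, FiniteDimensional k K → dm ρ W K = dm ρ W (K ⊓ M)) ↔ mf ρ W ≤ M := by
  rw [← le_fx_iff hs]
  constructor
  · intro h v hv
    obtain ⟨F, hF, hvF⟩ := hs v hv
    have h1 := hf F hF
    have h2 : fx ρ W (F ⊓ M) = fx ρ W F := Submodule.eq_of_le_of_finrank_eq (fx_mono inf_le_left) (h F hF).symm
    rw [← h2] at hvF
    exact fx_mono inf_le_right hvF
  · intro h K _
    unfold dm
    rw [fx_inf hs, inf_eq_left.mpr ((fx_le K).trans h)]

theorem bdd_iff : (∃ c, ∀ K : IntermediateField k Ω, FiniteDimensional k K → dm ρ W K ≤ c) ↔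
    FiniteDimensional k (mf ρ W) := by
  constructor
  · rintro ⟨c, hc⟩
    obtain ⟨K₀, hK₀, hmax⟩ : ∃ K₀ : IntermediateField k Ω, FiniteDimensional k K₀ ∧
        ∀ K : IntermediateField k Ω, FiniteDimensional k K → dm ρ W K ≤ dm ρ W K₀ := by
      obtain ⟨n, ⟨K₀, hK₀, rfl⟩, hn⟩ : ∃ n, (∃ K₀ : IntermediateField k Ω, FiniteDimensional k K₀ ∧ dm ρ W K₀ = n) ∧
          ∀ m, (∃ K : IntermediateField k Ω, FiniteDimensional k K ∧ dm ρ W K = m) → m ≤ n := by
        classical
        have h1 : ∃ K : IntermediateField k Ω, FiniteDimensional k K ∧ dm ρ W K = dm ρ W ⊥ := ⟨⊥, inferInstance, rfl⟩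
        have h2 : ∀ m, (∃ K : IntermediateField k Ω, FiniteDimensional k K ∧ dm ρ W K = m) → m ≤ c :=
          fun m ⟨K, hK, h⟩ => h ▸ hc K hK
        exact ⟨Nat.findGreatest (fun n => ∃ K : IntermediateField k Ω, FiniteDimensional k K ∧ dm ρ W K = n) c,
          Nat.findGreatest_spec (P := fun n => ∃ K : IntermediateField k Ω, FiniteDimensional k K ∧ dm ρ W K = n)
            (h2 _ h1) h1, fun m hm => Nat.le_findGreatest (h2 m hm) hm⟩
      exact ⟨K₀, hK₀, fun K hK => hn _ ⟨K, hK, rfl⟩⟩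
    have h1 : mf ρ W ≤ K₀ := by
      rw [← le_fx_iff hs]
      intro v hv
      obtain ⟨F, hF, hvF⟩ := hs v hv
      have h2 : FiniteDimensional k (F ⊔ K₀ : IntermediateField k Ω) := inferInstance
      have h3 := hf (F ⊔ K₀) h2
      have h4 : fx ρ W K₀ = fx ρ W (F ⊔ K₀) := Submodule.eq_of_le_of_finrank_le (fx_mono le_sup_right) (hmax _ h2)
      rw [h4]
      exact fx_mono le_sup_left hvF
    exact FiniteDimensional.of_injective (IntermediateField.inclusion h1).toLinearMap (IntermediateField.inclusion h1).injective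
  · intro h
    refine ⟨dm ρ W (mf ρ W), fun K hK => ?_⟩
    rw [(dm_iff hs hf (mf ρ W)).mpr le_rfl K hK]
    have h1 := hf _ h
    exact Submodule.finrank_mono (fx_mono inf_le_right)

end Pool.Agent.Q280.SF
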