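import Pool.Agent.Q280.SF.A

/-!
# Units of all number fields with coefficients in a field
-/

set_option autoImplicit false
set_option linter.unusedSectionVars false

open IntermediateField Module TensorProduct

namespace Pool.Agent.Q280.SF

section Indep

variable {R A : Type} [Field R] [CharZero R] [AddCommGroup A]

/-- integral independence gives independence after tensoring -/
theorem indep_tmul {r : ℕ} {f : Fin r → A} (hf : LinearIndependent ℤ f) :
    LinearIndependent R (fun i => (1 : R) ⊗ₜ[ℤ] f i) := by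
  have hflat : Module.Flat ℤ R := inferInstance
  rw [Fintype.linearIndependent_iff]
  intro a ha j
  have h1 : Function.Injective (LinearMap.lTensor R (Fintype.linearCombination ℤ f)) :=
    Module.Flat.lTensor_preserves_injective_linearMap _ (by
      rw [← LinearMap.ker_eq_bot, LinearMap.ker_eq_bot']
      intro g hg
      rw [Fintype.linearCombination_apply] at hg
      exact funext (Fintype.linearIndependent_iff.mp hf g hg))
  have h2 : ∑ i, a i ⊗ₜ[ℤ] (Pi.single i (1 : ℤ) : Fin r → ℤ) = 0 := by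
    apply h1
    rw [map_sum, map_zero, ← ha]
    refine Finset.sum_congr rfl fun i _ => ?_
    rw [LinearMap.lTensor_tmul, Fintype.linearCombination_apply_single, one_smul, smul_tmul', smul_eq_mul, mul_one]
  obtain ⟨e, he⟩ : ∃ e : R ⊗[ℤ] (Fin r → ℤ) →ₗ[ℤ] R, ∀ (x : R) (n : Fin r → ℤ), e (x ⊗ₜ n) = n j • x :=
    ⟨TensorProduct.lift (LinearMap.mk₂ ℤ (fun (x : R) (n : Fin r → ℤ) => n j • x)
      (fun x y n => smul_add _ _ _) (fun c x n => smul_comm _ _ _)
      (fun x m n => add_smul _ _ _) (fun c x n => by rw [Pi.smul_apply, smul_eq_mul, mul_smul])),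
      fun x n => rfl⟩
  have h3 := congrArg e h2
  rw [map_sum, map_zero] at h3
  simp only [he] at h3
  rw [Finset.sum_eq_single j] at h3
  · rwa [Pi.single_eq_same, one_smul] at h3
  · intro i _ hij
    rw [Pi.single_eq_of_ne hij.symm, zero_smul]
  · exact fun h => absurd (Finset.mem_univ j) h

end Indep

variable (R : Type) [Field R] [CharZero R] (Ω : Type) [Field Ω] [Algebra ℚ Ω]

/-- the multiplicative group with coefficients -/
abbrev VV : Type := R ⊗[ℤ] (Additive Ωˣ)

variable {Ω}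

/-- the element of a number -/
def el (x : Ωˣ) : VV R Ω := (1 : R) ⊗ₜ[ℤ] (Additive.ofMul x)

/-- the action on the multiplicative group -/
def am (g : Ω ≃ₐ[ℚ] Ω) : Additive Ωˣ →ₗ[ℤ] Additive Ωˣ :=
  (MonoidHom.toAdditive (Units.map (g : Ω →* Ω))).toIntLinearMap

theorem am_apply (g : Ω ≃ₐ[ℚ] Ω) (x : Ωˣ) : am g (Additive.ofMul x) = Additive.ofMul (Units.map (g : Ω →* Ω) x) := rfl

/-- the representation -/
noncomputable def rho : Representation R (Ω ≃ₐ[ℚ] Ω) (VV R Ω) where
  toFun g := (am g).baseChange R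
  map_one' := by
    have h1 : am (1 : Ω ≃ₐ[ℚ] Ω) = LinearMap.id := LinearMap.ext fun x => rfl
    rw [h1, LinearMap.baseChange_id]
    rfl
  map_mul' g h := by
    have h1 : am (g * h) = am g ∘ₗ am h := LinearMap.ext fun x => rfl
    rw [h1, LinearMap.baseChange_comp]
    rfl

theorem rho_el (g : Ω ≃ₐ[ℚ] Ω) (x : Ωˣ) : rho R g (el R x) = el R (Units.map (g : Ω →* Ω) x) := rfl

theorem el_mul (x y : Ωˣ) : el R (x * y) = el R x + el R y := by
  unfold el
  rw [ofMul_mul, tmul_add]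

theorem el_one : el R (1 : Ωˣ) = 0 := by
  unfold el
  rw [ofMul_one, tmul_zero]

theorem el_prod {ι : Type*} (s : Finset ι) (x : ι → Ωˣ) : el R (∏ i ∈ s, x i) = ∑ i ∈ s, el R (x i) := by
  unfold el
  rw [ofMul_prod, tmul_sum]

theorem el_zpow (x : Ωˣ) (n : ℤ) : el R (x ^ n) = (n : R) • el R x := by
  have h1 : el R (x ^ n) = n • el R x := by
    have h2 := map_zsmul (TensorProduct.mk ℤ R (Additive Ωˣ) 1) n (Additive.ofMul x)
    exact h2
  rw [h1, ← Int.cast_smul_eq_zsmul R]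

/-- the units of a field -/
def Un (F : IntermediateField ℚ Ω) : Set Ωˣ := {x | (x : Ω) ∈ F ∧ IsIntegral ℤ (x : Ω) ∧ IsIntegral ℤ ((x⁻¹ : Ωˣ) : Ω)}

/-- the space of the units -/
noncomputable def VU (F : IntermediateField ℚ Ω) : Submodule R (VV R Ω) := Submodule.span R (el R '' Un F)

theorem Un_map (g : Ω ≃ₐ[ℚ] Ω) {x : Ωˣ} (hx : x ∈ Un (⊤ : IntermediateField ℚ Ω)) :
    Units.map (g : Ω →* Ω) x ∈ Un (⊤ : IntermediateField ℚ Ω) :=
  ⟨trivial, hx.2.1.map (g : Ω →ₐ[ℚ] Ω), hx.2.2.map (g : Ω →ₐ[ℚ] Ω)⟩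

theorem VU_mono {F F' : IntermediateField ℚ Ω} (h : F ≤ F') : VU R F ≤ VU R F' :=
  Submodule.span_mono (Set.image_mono fun _ hx => ⟨h hx.1, hx.2⟩)

theorem VU_fixed {F : IntermediateField ℚ Ω} {v : VV R Ω} (hv : v ∈ VU R F) {g : Ω ≃ₐ[ℚ] Ω} (hg : g ∈ F.fixingSubgroup) :
    rho R g v = v := by
  have h1 : VU R F ≤ LinearMap.eqLocus (rho R g) LinearMap.id := by
    refine Submodule.span_le.mpr ?_
    rintro _ ⟨x, hx, rfl⟩
    change rho R g (el R x) = el R x
    rw [rho_el]
    congr 1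
    exact Units.ext (hg ⟨x, hx.1⟩)
  exact h1 hv

theorem VU_stable {v : VV R Ω} (hv : v ∈ VU R (⊤ : IntermediateField ℚ Ω)) (g : Ω ≃ₐ[ℚ] Ω) :
    rho R g v ∈ VU R (⊤ : IntermediateField ℚ Ω) := by
  have h1 : VU R (⊤ : IntermediateField ℚ Ω) ≤ (VU R (⊤ : IntermediateField ℚ Ω)).comap (rho R g) := by
    refine Submodule.span_le.mpr ?_
    rintro _ ⟨x, hx, rfl⟩
    change rho R g (el R x) ∈ VU R _
    rw [rho_el]
    exact Submodule.subset_span ⟨_, Un_map g hx, rfl⟩
  exact h1 hv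

variable [IsGalois ℚ Ω]

/-- every vector comes from a finite extension -/
theorem VU_fin {v : VV R Ω} (hv : v ∈ VU R (⊤ : IntermediateField ℚ Ω)) :
    ∃ F : IntermediateField ℚ Ω, FiniteDimensional ℚ F ∧ v ∈ VU R F := by
  induction hv using Submodule.span_induction with
  | mem _ h =>
    obtain ⟨x, hx, rfl⟩ := h
    refine ⟨IntermediateField.adjoin ℚ {(x : Ω)}, IntermediateField.adjoin.finiteDimensional
      (Algebra.IsIntegral.isIntegral _), Submodule.subset_span ⟨x, ⟨?_, hx.2⟩, rfl⟩⟩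
    exact IntermediateField.mem_adjoin_simple_self ℚ _
  | zero => exact ⟨⊥, inferInstance, Submodule.zero_mem _⟩
  | add v w _ _ h1 h2 =>
    obtain ⟨F, hF, h1⟩ := h1
    obtain ⟨F', hF', h2⟩ := h2
    exact ⟨F ⊔ F', inferInstance, Submodule.add_mem _ (VU_mono R le_sup_left h1) (VU_mono R le_sup_right h2)⟩
  | smul c v _ h1 =>
    obtain ⟨F, hF, h1⟩ := h1
    exact ⟨F, hF, Submodule.smul_mem _ c h1⟩

end Pool.Agent.Q280.SF
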