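import Pool.Agent.Q280.SF.B

/-!
# Galois descent for the units with coefficients, and their dimension
-/

set_option autoImplicit false
set_option linter.unusedSectionVars false

open IntermediateField Module TensorProduct NumberField

namespace Pool.Agent.Q280.SF

variable (R : Type) [Field R] [CharZero R] {Ω : Type} [Field Ω] [Algebra ℚ Ω] [IsAlgClosed Ω] [Algebra.IsAlgebraic ℚ Ω]
  [IsGalois ℚ Ω]

/-- an embedding over `F` of a field between is the restriction of an automorphism over `F` -/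
theorem exists_lift (F : IntermediateField ℚ Ω) (E : IntermediateField F Ω) (σ : E →ₐ[F] Ω) :
    ∃ g : Ω ≃ₐ[ℚ] Ω, g ∈ F.fixingSubgroup ∧ ∀ x : E, g (x : Ω) = σ x := by
  have : Algebra.IsAlgebraic F Ω := Algebra.IsAlgebraic.tower_top (K := ℚ) F
  have : Normal F Ω := Normal.tower_top_of_normal ℚ F Ω
  obtain ⟨φ, hφ⟩ := IntermediateField.exists_algHom_of_splits (F := F) (E := Ω) (K := Ω)
    (fun s => ⟨Algebra.IsIntegral.isIntegral s, IsAlgClosed.splits _⟩) σ
  refine ⟨(AlgEquiv.ofBijective φ (Algebra.IsAlgebraic.algHom_bijective φ)).restrictScalars ℚ, ?_, ?_⟩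
  · intro x
    exact φ.commutes x
  · intro x
    exact DFunLike.congr_fun hφ x

theorem VU_descent {F : IntermediateField ℚ Ω} (hF : FiniteDimensional ℚ F) {v : VV R Ω}
    (hv : v ∈ VU R (⊤ : IntermediateField ℚ Ω)) (h : ∀ g ∈ F.fixingSubgroup, rho R g v = v) : v ∈ VU R F := by
  obtain ⟨L₀, hL₀, hv₀⟩ := VU_fin R hv
  obtain ⟨L, hFL, hL, hvL⟩ : ∃ L : IntermediateField ℚ Ω, F ≤ L ∧ FiniteDimensional ℚ L ∧ v ∈ VU R L :=
    ⟨F ⊔ L₀, le_sup_left, inferInstance, VU_mono R le_sup_right hv₀⟩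
  obtain ⟨E, hE⟩ : ∃ E : IntermediateField F Ω, ∀ x, x ∈ E ↔ x ∈ L :=
    ⟨extendScalars hFL, fun x => mem_extendScalars _⟩
  have hfin : FiniteDimensional F E := by
    have : FiniteDimensional ℚ E := by
      have e : (L : Type) ≃ₗ[ℚ] E :=
        { toFun := fun x => ⟨x, (hE _).mpr x.2⟩
          invFun := fun x => ⟨x, (hE _).mp x.2⟩
          map_add' := fun _ _ => rfl
          map_smul' := fun c x => rfl
          left_inv := fun _ => rfl
          right_inv := fun _ => rfl }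
      exact Module.Finite.equiv e
    exact FiniteDimensional.right ℚ F E
  choose g hgF hg using exists_lift F E
  have key : ∀ w ∈ VU R L, ∑ σ : E →ₐ[F] Ω, rho R (g σ) w ∈ VU R F := by
    intro w hw
    have h1 : VU R L ≤ (VU R F).comap (∑ σ : E →ₐ[F] Ω, rho R (g σ)) := by
      refine Submodule.span_le.mpr ?_
      rintro _ ⟨x, hx, rfl⟩
      change (∑ σ : E →ₐ[F] Ω, rho R (g σ)) (el R x) ∈ VU R F
      rw [LinearMap.sum_apply]
      simp only [rho_el]
      rw [← el_prod]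
      refine Submodule.subset_span ⟨_, ⟨?_, ?_, ?_⟩, rfl⟩
      · have h2 : ((∏ σ : E →ₐ[F] Ω, Units.map (g σ : Ω →* Ω) x : Ωˣ) : Ω) =
            algebraMap F Ω (Algebra.norm F (⟨x, (hE _).mpr hx.1⟩ : E)) := by
          rw [Algebra.norm_eq_prod_embeddings F Ω, Units.coe_prod]
          refine Finset.prod_congr rfl fun σ _ => ?_
          have h5 := hg σ ⟨x, (hE _).mpr hx.1⟩
          exact h5
        rw [h2]
        exact SetLike.coe_mem _
      · rw [Units.coe_prod]
        exact IsIntegral.prod _ fun σ _ => hx.2.1.map (g σ : Ω →ₐ[ℚ] Ω)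
      · rw [← Finset.prod_inv_distrib, Units.coe_prod]
        exact IsIntegral.prod _ fun σ _ => hx.2.2.map (g σ : Ω →ₐ[ℚ] Ω)
    have h2 := h1 hw
    have h3 : (∑ σ : E →ₐ[F] Ω, rho R (g σ)) w ∈ VU R F := h2
    rwa [LinearMap.sum_apply] at h3
  have h1 := key v hvL
  have h2 : ∑ σ : E →ₐ[F] Ω, rho R (g σ) v = (Fintype.card (E →ₐ[F] Ω) : R) • v := by
    rw [Finset.sum_congr rfl fun σ _ => h (g σ) (hgF σ), Finset.sum_const, Finset.card_univ, Nat.cast_smul_eq_nsmul]
  rw [h2] at h1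
  have h3 : (Fintype.card (E →ₐ[F] Ω) : R) ≠ 0 := by
    rw [Nat.cast_ne_zero]
    have : Nonempty (E →ₐ[F] Ω) := ⟨E.val⟩
    exact Fintype.card_ne_zero
  have h4 := Submodule.smul_mem (VU R F) ((Fintype.card (E →ₐ[F] Ω) : R)⁻¹) h1
  rwa [smul_smul, inv_mul_cancel₀ h3, one_smul] at h4

section Rank

variable (F : IntermediateField ℚ Ω)

/-- the units of the ring of integers inside the big field -/
noncomputable def uu : (𝓞 F)ˣ →* Ωˣ := Units.map ((algebraMap F Ω).comp (algebraMap (𝓞 F) F) : 𝓞 F →+* Ω)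

theorem uu_coe (ε : (𝓞 F)ˣ) : ((uu F ε : Ωˣ) : Ω) = (((ε : 𝓞 F) : F) : Ω) := rfl

theorem uu_inj : Function.Injective (uu F) := by
  refine Units.map_injective ?_
  intro a b hab
  exact RingOfIntegers.coe_injective (FaithfulSMul.algebraMap_injective F Ω hab)

theorem Un_eq : Un F = Set.range (uu F) := by
  ext x
  constructor
  · rintro ⟨h1, h2, h3⟩
    have h4 : IsIntegral ℤ (⟨x, h1⟩ : F) := by
      rw [← isIntegral_algHom_iff (IsScalarTower.toAlgHom ℤ F Ω) (FaithfulSMul.algebraMap_injective F Ω)]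
      exact h2
    have h6 : ((x⁻¹ : Ωˣ) : Ω) ∈ F := by
      rw [Units.val_inv_eq_inv_val]
      exact F.inv_mem h1
    have h5 : IsIntegral ℤ (⟨((x⁻¹ : Ωˣ) : Ω), h6⟩ : F) := by
      rw [← isIntegral_algHom_iff (IsScalarTower.toAlgHom ℤ F Ω) (FaithfulSMul.algebraMap_injective F Ω)]
      exact h3
    refine ⟨⟨⟨_, h4⟩, ⟨_, h5⟩, ?_, ?_⟩, Units.ext rfl⟩
    · exact RingOfIntegers.ext (Subtype.ext (Units.mul_inv x))
    · exact RingOfIntegers.ext (Subtype.ext (Units.inv_mul x))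
  · rintro ⟨ε, rfl⟩
    refine ⟨SetLike.coe_mem _, ?_, ?_⟩
    · exact (RingOfIntegers.isIntegral_coe (ε : 𝓞 F)).map (IsScalarTower.toAlgHom ℤ F Ω)
    · rw [← map_inv]
      exact (RingOfIntegers.isIntegral_coe ((ε⁻¹ : (𝓞 F)ˣ) : 𝓞 F)).map (IsScalarTower.toAlgHom ℤ F Ω)

variable [NumberField F]

theorem el_torsion {ζ : (𝓞 F)ˣ} (h : ζ ∈ Units.torsion F) : el R (uu F ζ) = 0 := by
  obtain ⟨n, hn, h1⟩ := isOfFinOrder_iff_pow_eq_one.mp ((CommGroup.mem_torsion (G := (𝓞 F)ˣ) ζ).mp h)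
  have h2 : el R (uu F (ζ ^ (n : ℤ))) = 0 := by
    rw [zpow_natCast, h1, map_one, el_one]
  rw [map_zpow, el_zpow] at h2
  refine (smul_eq_zero.mp h2).resolve_left ?_
  rw [Int.cast_natCast]
  exact Nat.cast_ne_zero.mpr hn.ne'

/-- the fundamental units -/
noncomputable def bas (i : Fin (Units.rank F)) : VV R Ω := el R (uu F (Units.fundSystem F i))

theorem VU_span : VU R F = Submodule.span R (Set.range (bas R F)) := by
  refine le_antisymm ?_ ?_
  · refine Submodule.span_le.mpr ?_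
    rw [Un_eq]
    rintro _ ⟨_, ⟨ε, rfl⟩, rfl⟩
    obtain ⟨⟨ζ, e⟩, h, -⟩ := Units.exist_unique_eq_mul_prod F ε
    rw [h, map_mul, el_mul, el_torsion R F ζ.2, zero_add, map_prod, el_prod]
    refine Submodule.sum_mem _ fun i _ => ?_
    rw [map_zpow, el_zpow]
    exact Submodule.smul_mem _ _ (Submodule.subset_span ⟨i, rfl⟩)
  · refine Submodule.span_mono ?_
    rintro _ ⟨i, rfl⟩
    refine ⟨_, ?_, rfl⟩
    rw [Un_eq]
    exact ⟨_, rfl⟩

theorem bas_indep : LinearIndependent R (bas R F) := by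
  refine indep_tmul (f := fun i => Additive.ofMul (uu F (Units.fundSystem F i))) ?_
  have h1 : LinearIndependent ℤ (fun i => (Additive.ofMul (Units.fundSystem F i) : Additive (𝓞 F)ˣ)) := by
    rw [Fintype.linearIndependent_iff]
    intro n hn j
    have h2 : ∏ i, Units.fundSystem F i ^ n i = 1 := by
      have h3 := congrArg Additive.toMul hn
      rw [toMul_sum, toMul_zero] at h3
      exact h3
    obtain ⟨ζe, -, h3⟩ := Units.exist_unique_eq_mul_prod F (1 : (𝓞 F)ˣ)
    have h4 := h3 (1, n) (by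
      change (1 : (𝓞 F)ˣ) = ((1 : Units.torsion F) : (𝓞 F)ˣ) * ∏ i, Units.fundSystem F i ^ n i
      rw [h2, OneMemClass.coe_one, one_mul])
    have h5 := h3 (1, 0) (by
      change (1 : (𝓞 F)ˣ) = ((1 : Units.torsion F) : (𝓞 F)ˣ) * ∏ i, Units.fundSystem F i ^ (0 : Fin (Units.rank F) → ℤ) i
      rw [OneMemClass.coe_one, one_mul]
      exact (Finset.prod_eq_one fun i _ => zpow_zero _).symm)
    exact congrFun (congrArg Prod.snd (h4.trans h5.symm)) j
  refine h1.map' (MonoidHom.toAdditive (uu F)).toIntLinearMap ?_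
  rw [LinearMap.ker_eq_bot]
  intro a b hab
  exact uu_inj F hab

theorem VU_findim : FiniteDimensional R (VU R F) := by
  rw [VU_span]
  exact FiniteDimensional.span_of_finite R (Set.finite_range _)

theorem VU_finrank : finrank R (VU R F) = Units.rank F := by
  rw [VU_span, finrank_span_eq_card (bas_indep R F), Fintype.card_fin]

end Rank

end Pool.Agent.Q280.SF
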