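import Pool.Agent.Q280.SF.C

/-!
# The kernel of a logarithm on the units with coefficients and its Galois submodule
-/

set_option autoImplicit false
set_option linter.unusedSectionVars false

open IntermediateField Module TensorProduct NumberField

namespace Pool.Agent.Q280.SF

variable {R : Type} [Field R] [CharZero R] {Ω : Type} [Field Ω] [Algebra ℚ Ω] [IsAlgClosed Ω] [Algebra.IsAlgebraic ℚ Ω]
  [IsGalois ℚ Ω] {C : Type} [Field C] [IsAlgClosed C] [CharZero C] [Algebra R C] [Algebra ℚ C]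
  (ι : Ω →ₐ[ℚ] C) {L : C → C} (hmul : ∀ x y : C, x ≠ 0 → y ≠ 0 → L (x * y) = L x + L y)

/-- the logarithm as a homomorphism -/
def lh : Additive Ωˣ →+ C where
  toFun x := L (ι ((x.toMul : Ωˣ) : Ω))
  map_zero' := by
    have h1 := hmul 1 1 one_ne_zero one_ne_zero
    rw [mul_one] at h1
    change L (ι 1) = 0
    rw [map_one]
    exact left_eq_add.mp h1
  map_add' x y := by
    change L (ι (((x.toMul * y.toMul : Ωˣ)) : Ω)) = _
    rw [Units.val_mul, map_mul]
    refine hmul _ _ ?_ ?_
    · rw [Ne, map_eq_zero]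
      exact Units.ne_zero _
    · rw [Ne, map_eq_zero]
      exact Units.ne_zero _

/-- the logarithm with coefficients -/
noncomputable def La : VV R Ω →ₗ[R] C := LinearMap.liftBaseChange R (lh ι hmul).toIntLinearMap

theorem La_el (x : Ωˣ) : La (R := R) ι hmul (el R x) = L (ι x) := by
  unfold La el
  rw [LinearMap.liftBaseChange_tmul, one_smul]
  rfl

variable (R) in
/-- the kernel of the logarithm of all conjugates -/
noncomputable def KK : Submodule R (VV R Ω) where
  carrier := {v | v ∈ VU R (⊤ : IntermediateField ℚ Ω) ∧ ∀ g : Ω ≃ₐ[ℚ] Ω, La ι hmul (rho R g v) = 0}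
  add_mem' := fun ⟨h1, h2⟩ ⟨h3, h4⟩ => ⟨Submodule.add_mem _ h1 h3, fun g => by rw [map_add, map_add, h2 g, h4 g, add_zero]⟩
  zero_mem' := ⟨Submodule.zero_mem _, fun g => by rw [map_zero, map_zero]⟩
  smul_mem' := fun c v ⟨h1, h2⟩ => ⟨Submodule.smul_mem _ c h1, fun g => by rw [map_smul, map_smul, h2 g, smul_zero]⟩

theorem KK_stable (g : Ω ≃ₐ[ℚ] Ω) {v : VV R Ω} (hv : v ∈ KK R ι hmul) : rho R g v ∈ KK R ι hmul := by
  refine ⟨VU_stable R hv.1 g, fun h => ?_⟩
  rw [← Module.End.mul_apply, ← map_mul]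
  exact hv.2 _

theorem KK_smooth : Smooth (rho R) (KK R ι hmul) := by
  intro v hv
  obtain ⟨F, hF, hvF⟩ := VU_fin R hv.1
  exact ⟨F, hF, hv, fun g hg => VU_fixed R hvF hg⟩

theorem mem_fx_iff {F : IntermediateField ℚ Ω} (hF : FiniteDimensional ℚ F) {v : VV R Ω} :
    v ∈ fx (rho R) (KK R ι hmul) F ↔ v ∈ VU R F ∧ ∀ g : Ω ≃ₐ[ℚ] Ω, La ι hmul (rho R g v) = 0 :=
  ⟨fun h => ⟨VU_descent R hF h.1.1 h.2, h.1.2⟩, fun h => ⟨⟨VU_mono R le_top h.1, h.2⟩, fun _ hg => VU_fixed R h.1 hg⟩⟩

omit [IsAlgClosed Ω] [Algebra.IsAlgebraic ℚ Ω] [IsGalois ℚ Ω] in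
theorem nf_of (F : IntermediateField ℚ Ω) (hF : FiniteDimensional ℚ F) : NumberField F :=
  { to_charZero := charZero_of_injective_algebraMap (algebraMap ℚ F).injective, to_finiteDimensional := by
      convert hF
      exact Subsingleton.elim _ _ }

omit [IsAlgClosed Ω] [Algebra.IsAlgebraic ℚ Ω] [IsGalois ℚ Ω] in
theorem fin_of (F : IntermediateField ℚ Ω) (hF : NumberField F) : FiniteDimensional ℚ F := by
  convert hF.to_finiteDimensional
  exact Subsingleton.elim _ _

theorem fx_findim {F : IntermediateField ℚ Ω} (hF : FiniteDimensional ℚ F) :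
    FiniteDimensional R (fx (rho R) (KK R ι hmul) F) := by
  have := nf_of F hF
  have h1 := VU_findim R F
  exact Submodule.finiteDimensional_of_le (S₂ := VU R F) fun v hv => ((mem_fx_iff ι hmul hF).mp hv).1

include ι in
/-- every embedding comes from an automorphism -/
theorem exists_aut (F : IntermediateField ℚ Ω) (σ : F →+* C) : ∃ g : Ω ≃ₐ[ℚ] Ω, ∀ x : F, ι (g x) = σ x := by
  obtain ⟨φ, hφ⟩ := IntermediateField.exists_algHom_of_splits (F := ℚ) (E := Ω) (K := C)
    (fun s => ⟨Algebra.IsIntegral.isIntegral s, IsAlgClosed.splits _⟩) (L := F)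
    (@AlgHom.mk ℚ F C _ _ _ (IntermediateField.algebra' F) _ σ (fun q => by
      have h1 : ∀ q : ℚ, (σ.comp (@algebraMap ℚ F _ _ (IntermediateField.algebra' F))) q = algebraMap ℚ C q := fun q => by
        rw [eq_ratCast, eq_ratCast]
      exact h1 q))
  let _ : Algebra Ω C := ι.toRingHom.toAlgebra
  have : IsScalarTower ℚ Ω C := IsScalarTower.of_algebraMap_eq' ι.comp_algebraMap.symm
  have h1 : ∀ x : Ω, ι (φ.restrictNormal' Ω x) = φ x := fun x => AlgHom.restrictNormal_commutes φ Ω x
  refine ⟨φ.restrictNormal' Ω, fun x => ?_⟩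
  rw [h1]
  exact DFunLike.congr_fun hφ x

variable (R) in
/-- **the rank of the logarithms and the dimension of the kernel** -/
theorem rank_eq (F : IntermediateField ℚ Ω) [NumberField F] :
    finrank R (Submodule.span R (Set.range fun (ε : (𝓞 F)ˣ) (σ : F →+* C) => L (σ ((ε : 𝓞 F) : F)))) +
      dm (rho R) (KK R ι hmul) F = Units.rank F := by
  have hF : FiniteDimensional ℚ F := fin_of F inferInstance
  choose g hg using exists_aut ι F (C := C)
  let Φ : VV R Ω →ₗ[R] ((F →+* C) → C) := LinearMap.pi fun σ => (La ι hmul) ∘ₗ (rho R (g σ))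
  have hΦ : ∀ v σ, Φ v σ = La ι hmul (rho R (g σ) v) := fun v σ => rfl
  have h1 : (VU R F).map Φ = Submodule.span R (Set.range fun (ε : (𝓞 F)ˣ) (σ : F →+* C) => L (σ ((ε : 𝓞 F) : F))) := by
    unfold VU
    rw [Submodule.map_span, Un_eq, ← Set.range_comp, ← Set.range_comp]
    congr 2
    funext ε σ
    change Φ (el R (uu F ε)) σ = _
    rw [hΦ, rho_el, La_el]
    exact congrArg L (hg σ _)
  have h2 : fx (rho R) (KK R ι hmul) F = VU R F ⊓ LinearMap.ker Φ := by
    ext v
    rw [mem_fx_iff ι hmul hF, Submodule.mem_inf, LinearMap.mem_ker]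
    refine and_congr_right fun hv => ⟨fun h => funext fun σ => h _, fun h k => ?_⟩
    have h3 : rho R k v = rho R (g ((ι : Ω →+* C).comp ((k : Ω →+* Ω).comp (algebraMap F Ω)))) v := by
      set s := g ((ι : Ω →+* C).comp ((k : Ω →+* Ω).comp (algebraMap F Ω))) with hs
      have h4 : s⁻¹ * k ∈ F.fixingSubgroup := by
        intro x
        have h5 : ι (s x) = ι (k x) := hg _ x
        have h6 : s x = k x := ι.injective h5
        change s⁻¹ (k x) = x
        rw [← h6]
        exact AlgEquiv.symm_apply_apply s _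
      have h7 := VU_fixed R hv h4
      have h8 : rho R s (rho R (s⁻¹ * k) v) = rho R k v := by
        rw [← Module.End.mul_apply, ← map_mul, mul_inv_cancel_left]
      rw [← h8, h7]
    rw [h3]
    exact congrFun h _
  have h3 := VU_findim R F
  have h4 := LinearMap.finrank_range_add_finrank_ker (Φ.domRestrict (VU R F))
  rw [VU_finrank, LinearMap.range_domRestrict, h1] at h4
  rw [← h4]
  congr 1
  unfold dm
  rw [h2, LinearMap.ker_domRestrict]
  rw [← Submodule.map_comap_subtype]
  exact (LinearEquiv.finrank_eq (Submodule.equivMapOfInjective (VU R F).subtype (Submodule.injective_subtype _) _)).symm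

end Pool.Agent.Q280.SF
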