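import Pool.Agent.Q280.SF.A

/-!
# More on smooth representations: critical fields and supermodularity
-/

set_option autoImplicit false
set_option linter.unusedSectionVars false

open IntermediateField Module

namespace Pool.Agent.Q280.SF

variable {k Ω : Type} [Field k] [Field Ω] [Algebra k Ω] [IsGalois k Ω] {R V : Type} [Field R] [AddCommGroup V] [Module R V]
  {ρ : Representation R (Ω ≃ₐ[k] Ω) V} {W : Submodule R V} (hs : Smooth ρ W)
  (hf : ∀ F : IntermediateField k Ω, FiniteDimensional k F → FiniteDimensional R (fx ρ W F))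

include hs hf

/-- **the smallest field is the compositum of the critical fields** -/
theorem mf_eq_sSup : mf ρ W = sSup {K : IntermediateField k Ω | FiniteDimensional k K ∧
    ∀ K' : IntermediateField k Ω, K' < K → dm ρ W K' < dm ρ W K} := by
  refine le_antisymm ?_ (sSup_le ?_)
  · rw [← le_fx_iff hs]
    intro v hv
    obtain ⟨F, hF⟩ := exists_field hs hv
    obtain ⟨F', hF', hvF'⟩ := hs v hv
    have key : ∀ M : IntermediateField k Ω, v ∈ fx ρ W M → F ≤ M := by
      intro M hM
      rw [← InfiniteGalois.fixedField_fixingSubgroup F, ← InfiniteGalois.fixedField_fixingSubgroup M]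
      exact fixedField_antitone fun g hg => (hF g).mpr (hM.2 g hg)
    have hFF := key F' hvF'
    have hfin : FiniteDimensional k F := FiniteDimensional.of_injective (IntermediateField.inclusion hFF).toLinearMap
      (IntermediateField.inclusion hFF).injective
    have hmem : F ∈ {K : IntermediateField k Ω | FiniteDimensional k K ∧
        ∀ K' : IntermediateField k Ω, K' < K → dm ρ W K' < dm ρ W K} := by
      refine ⟨hfin, fun K' hK' => ?_⟩
      have h1 := hf F hfin
      refine Submodule.finrank_lt_finrank_of_lt (lt_of_le_of_ne (fx_mono hK'.le) fun h => ?_)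
      have h2 : v ∈ fx ρ W K' := by
        rw [h]
        exact ⟨hv, fun g hg => (hF g).mp hg⟩
      exact not_le_of_gt hK' (key K' h2)
    exact fx_mono (le_sSup hmem) ⟨hv, fun g hg => (hF g).mp hg⟩
  · rintro K ⟨hK, hc⟩
    have h1 := (dm_iff hs hf (mf ρ W)).mpr le_rfl K hK
    by_contra h2
    exact absurd (hc (K ⊓ mf ρ W) (lt_of_le_of_ne inf_le_left fun h => h2 (inf_eq_left.mp h))) (by rw [h1]; exact lt_irrefl _)

/-- **supermodularity** -/
theorem dm_super (K K' : IntermediateField k Ω) (hK : FiniteDimensional k K) (hK' : FiniteDimensional k K') :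
    dm ρ W K + dm ρ W K' ≤ dm ρ W (K ⊔ K') + dm ρ W (K ⊓ K') := by
  have h1 := hf K hK
  have h2 := hf K' hK'
  have h3 := hf (K ⊔ K') inferInstance
  unfold dm
  rw [← Submodule.finrank_sup_add_finrank_inf_eq, fx_inf hs]
  refine Nat.add_le_add_right (Submodule.finrank_mono (sup_le (fx_mono le_sup_left) (fx_mono le_sup_right))) _

end Pool.Agent.Q280.SF
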