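import Pool.Agent.Q280.SF.D
import Pool.Agent.Q280.SF.E
import Pool.Agent.W254.PA.LeoF

/-!
# The theorem of Ax and Brumer (starting library) for the kernel of the logarithm
-/

set_option autoImplicit false
set_option linter.unusedSectionVars false

open IntermediateField Module TensorProduct NumberField

namespace Pool.Agent.Q280.SF

section AnyLog

variable {R : Type} [Field R] [CharZero R] {Ω : Type} [Field Ω] [Algebra ℚ Ω] [IsAlgClosed Ω] [Algebra.IsAlgebraic ℚ Ω]
  [IsGalois ℚ Ω] {C : Type} [Field C] [IsAlgClosed C] [CharZero C] [Algebra R C] [Algebra ℚ C]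
  (ι : Ω →ₐ[ℚ] C) {L : C → C} (hmul : ∀ x y : C, x ≠ 0 → y ≠ 0 → L (x * y) = L x + L y)

theorem fx_eq_bot (F : IntermediateField ℚ Ω) [NumberField F]
    (h : ∀ a : Fin (Units.rank F) → C, (∀ σ : F →+* C, ∑ i, a i * L (σ ((Units.fundSystem F i : 𝓞 F) : F)) = 0) → a = 0) :
    fx (rho R) (KK R ι hmul) F = ⊥ := by
  have hF : FiniteDimensional ℚ F := fin_of F inferInstance
  rw [eq_bot_iff]
  intro v hv
  obtain ⟨h1, h2⟩ := (mem_fx_iff ι hmul hF).mp hv
  rw [VU_span, Submodule.mem_span_range_iff_exists_fun] at h1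
  obtain ⟨a, rfl⟩ := h1
  have h3 := h (fun i => algebraMap R C (a i)) fun σ => by
    obtain ⟨g, hg⟩ := exists_aut ι F σ
    have h4 := h2 g
    rw [map_sum, map_sum] at h4
    rw [← h4]
    refine Finset.sum_congr rfl fun i _ => ?_
    unfold bas
    rw [map_smul, map_smul, rho_el, La_el, Algebra.smul_def]
    congr 1
    exact congrArg L (hg _).symm
  rw [Submodule.mem_bot]
  refine Finset.sum_eq_zero fun i _ => ?_
  have h4 := congrFun h3 i
  have h5 : a i = 0 := (map_eq_zero (algebraMap R C)).mp h4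
  rw [h5, zero_smul]

end AnyLog

open Pool.Agent.W245.PB in
/-- abelian fields -/
theorem rel_zero {p : ℕ} [Fact p.Prime] {L : PadicAlgCl p → PadicAlgCl p} (hL : IsIwasawaLog p L)
    (F : Type) [Field F] [NumberField F] [IsGalois ℚ F] (hcomm : ∀ g h : F ≃ₐ[ℚ] F, g * h = h * g)
    (a : Fin (Units.rank F) → PadicAlgCl p)
    (ha : ∀ σ : F →+* PadicAlgCl p, ∑ i, a i * L (σ ((Units.fundSystem F i : 𝓞 F) : F)) = 0) : a = 0 := by
  refine Pool.Agent.W254.PA.gal_poly hL a 1 (F := F) ?_ (RingHom.id F) (Units.rank F) (Units.fundSystem F) ?_ a ?_ ha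
  · intro W _ _ _ ρ _ g h
    rw [hcomm]
  · intro n hn
    obtain ⟨ζe, -, h3⟩ := Units.exist_unique_eq_mul_prod F (1 : (𝓞 F)ˣ)
    have h4 := h3 (1, n) (by
      change (1 : (𝓞 F)ˣ) = ((1 : Units.torsion F) : (𝓞 F)ˣ) * ∏ i, Units.fundSystem F i ^ n i
      rw [hn, OneMemClass.coe_one, one_mul])
    have h5 := h3 (1, 0) (by
      change (1 : (𝓞 F)ˣ) = ((1 : Units.torsion F) : (𝓞 F)ˣ) * ∏ i, Units.fundSystem F i ^ (0 : Fin (Units.rank F) → ℤ) i
      rw [OneMemClass.coe_one, one_mul]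
      exact (Finset.prod_eq_one fun i _ => zpow_zero _).symm)
    exact congrArg Prod.snd (h4.trans h5.symm)
  · refine ⟨1, fun i => MvPolynomial.X i, fun i m hm s => ?_, fun i => ?_⟩
    · rw [MvPolynomial.support_X, Finset.mem_singleton] at hm
      rw [hm, Finsupp.single_apply]
      split_ifs <;> omega
    · rw [MvPolynomial.aeval_X, one_mul]

end Pool.Agent.Q280.SF
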