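import Pool.Agent.Q280.SF.F

/-!
# The smallest field which carries all Leopoldt defects
-/

set_option autoImplicit false
set_option linter.unusedSectionVars false

open IntermediateField Module TensorProduct NumberField

namespace Pool.Agent.Q280.SF

section Gen

variable {k Ω : Type} [Field k] [Field Ω] [Algebra k Ω] [IsGalois k Ω] {R V : Type} [Field R] [AddCommGroup V] [Module R V]
  {ρ : Representation R (Ω ≃ₐ[k] Ω) V} {W : Submodule R V} (hs : Smooth ρ W)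
  (hf : ∀ F : IntermediateField k Ω, FiniteDimensional k F → FiniteDimensional R (fx ρ W F))

include hs hf

/-- the smallest subfield with the same dimension -/
theorem exists_smallest (K : IntermediateField k Ω) (hK : FiniteDimensional k K) :
    ∃ K₀ ≤ K, ∀ K' ≤ K, dm ρ W K' = dm ρ W K ↔ K₀ ≤ K' := by
  have h1 := hf K hK
  have hs' : Smooth ρ (fx ρ W K) := fun v hv => ⟨K, hK, hv, hv.2⟩
  have h2 : ∀ K' : IntermediateField k Ω, fx ρ W K ≤ fx ρ W K' ↔ mf ρ (fx ρ W K) ≤ K' := by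
    intro K'
    rw [← le_fx_iff hs']
    exact ⟨fun h v hv => ⟨hv, (h hv).2⟩, fun h v hv => ⟨hv.1, (h hv).2⟩⟩
  refine ⟨mf ρ (fx ρ W K), (h2 K).mp le_rfl, fun K' hK' => ?_⟩
  rw [← h2 K']
  constructor
  · intro h
    exact (Submodule.eq_of_le_of_finrank_eq (fx_mono hK') h).ge
  · intro h
    unfold dm
    rw [le_antisymm (fx_mono hK') h]

/-- all dimensions are zero -/
theorem eq_bot_of_zero (h : ∀ F : IntermediateField k Ω, FiniteDimensional k F → dm ρ W F = 0) : mf ρ W = ⊥ := by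
  rw [eq_bot_iff, ← le_fx_iff hs]
  intro v hv
  obtain ⟨F, hF, hvF⟩ := hs v hv
  have h1 := hf F hF
  have h2 : fx ρ W F = ⊥ := Submodule.finrank_eq_zero.mp (h F hF)
  rw [h2, Submodule.mem_bot] at hvF
  rw [hvF]
  exact Submodule.zero_mem _

/-- the vectors of a finite normal subfield of the smallest field -/
theorem exists_normal {v : V} (hv : v ∈ W) (hN : Normal k (mf ρ W)) : ∃ F : IntermediateField k Ω,
    FiniteDimensional k F ∧ Normal k F ∧ F ≤ mf ρ W ∧ v ∈ fx ρ W F := by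
  obtain ⟨F', hF', hvF'⟩ := hs v hv
  have h1 : v ∈ fx ρ W (mf ρ W) := (le_fx_iff hs).mpr le_rfl hv
  have h2 : v ∈ fx ρ W (F' ⊓ mf ρ W) := by
    rw [fx_inf hs]
    exact ⟨hvF', h1⟩
  have h3 : FiniteDimensional k (F' ⊓ mf ρ W : IntermediateField k Ω) :=
    FiniteDimensional.of_injective (IntermediateField.inclusion (inf_le_left : F' ⊓ mf ρ W ≤ F')).toLinearMap
      (IntermediateField.inclusion (inf_le_left : F' ⊓ mf ρ W ≤ F')).injective
  exact ⟨normalClosure k (F' ⊓ mf ρ W : IntermediateField k Ω) Ω, inferInstance, inferInstance,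
    normalClosure_le_iff_of_normal.mpr inf_le_right, fx_mono (le_normalClosure _) h2⟩

end Gen

section Unit

open Pool.Agent.W245.PB

attribute [-instance] DivisionRing.toRatAlgebra

variable {p : ℕ} [Fact p.Prime] {Ω : Type} [Field Ω] [Algebra ℚ Ω] [IsAlgClosed Ω] [Algebra.IsAlgebraic ℚ Ω]
  [IsGalois ℚ Ω] [Algebra ℚ (PadicAlgCl p)] (ι : Ω →ₐ[ℚ] PadicAlgCl p) {L : PadicAlgCl p → PadicAlgCl p} (hL : IsIwasawaLog p L)
  (hmul : ∀ x y : PadicAlgCl p, x ≠ 0 → y ≠ 0 → L (x * y) = L x + L y)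

include hL in
/-- the theorem of Ax and Brumer -/
theorem ab_fx (F : IntermediateField ℚ Ω) (hF : FiniteDimensional ℚ F) (hN : Normal ℚ F)
    (hc : ∀ g h : Ω ≃ₐ[ℚ] Ω, ∀ x ∈ F, g (h x) = h (g x)) : fx (rho ℚ_[p]) (KK ℚ_[p] ι hmul) F = ⊥ := by
  have h0 := nf_of F hF
  refine fx_eq_bot ι hmul F ?_
  have hc0 : CharZero Ω := charZero_of_injective_algebraMap (algebraMap ℚ Ω).injective
  have h1 : (@DivisionRing.toRatAlgebra F _ _ : Algebra ℚ F) = IntermediateField.algebra' F := Subsingleton.elim _ _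
  have h3 : IsGalois ℚ F := { to_isSeparable := inferInstance, to_normal := hN }
  have h2 : @IsGalois ℚ _ F _ (@DivisionRing.toRatAlgebra F _ _) := by
    rw [h1]
    exact h3
  refine @rel_zero p _ L hL F _ _ h2 fun g h => ?_
  obtain ⟨g', hg⟩ := exists_aut (AlgHom.id ℚ Ω) F ((algebraMap F Ω).comp (g : F →+* F))
  obtain ⟨h', hh⟩ := exists_aut (AlgHom.id ℚ Ω) F ((algebraMap F Ω).comp (h : F →+* F))
  have hg1 : ∀ x : F, g' x = (g x : Ω) := hg
  have hh1 : ∀ x : F, h' x = (h x : Ω) := hh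
  refine DFunLike.ext _ _ fun x => Subtype.ext ?_
  change ((g (h x) : F) : Ω) = (h (g x) : F)
  rw [← hg1, ← hh1, ← hh1, ← hg1]
  exact hc g' h' x x.2

include hL in
theorem dm_bot : dm (rho ℚ_[p]) (KK ℚ_[p] ι hmul) (⊥ : IntermediateField ℚ Ω) = 0 := by
  unfold dm
  rw [ab_fx ι hL hmul ⊥ inferInstance inferInstance, finrank_bot]
  intro g h x hx
  obtain ⟨q, rfl⟩ := mem_bot.mp hx
  rw [AlgEquiv.commutes, AlgEquiv.commutes, AlgEquiv.commutes]

theorem KK_hf : ∀ F : IntermediateField ℚ Ω, FiniteDimensional ℚ F →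
    FiniteDimensional ℚ_[p] (fx (rho ℚ_[p]) (KK ℚ_[p] ι hmul) F) := fun _ hF => fx_findim ι hmul hF

theorem mf_norm : Normal ℚ (mf (rho ℚ_[p]) (KK ℚ_[p] ι hmul)) := mf_normal fun g _ hv => KK_stable ι hmul g hv

include hL in
theorem mf_bot_iff : (∀ F : IntermediateField ℚ Ω, FiniteDimensional ℚ F → dm (rho ℚ_[p]) (KK ℚ_[p] ι hmul) F = 0) ↔
    mf (rho ℚ_[p]) (KK ℚ_[p] ι hmul) = ⊥ := by
  constructor
  · exact eq_bot_of_zero (KK_smooth ι hmul) (KK_hf ι hmul)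
  · intro h F hF
    rw [(dm_iff (KK_smooth ι hmul) (KK_hf ι hmul) ⊥).mpr h.le F hF, inf_bot_eq]
    exact dm_bot ι hL hmul

include hL in
theorem mf_ab (hc : ∀ g h : mf (rho ℚ_[p]) (KK ℚ_[p] ι hmul) ≃ₐ[ℚ] mf (rho ℚ_[p]) (KK ℚ_[p] ι hmul), g * h = h * g) :
    mf (rho ℚ_[p]) (KK ℚ_[p] ι hmul) = ⊥ := by
  have hN := mf_norm ι hmul
  rw [eq_bot_iff, ← le_fx_iff (KK_smooth ι hmul)]
  intro v hv
  obtain ⟨F, hF, hFN, hFM, hvF⟩ := exists_normal (KK_smooth ι hmul) (KK_hf ι hmul) hv hN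
  rw [ab_fx ι hL hmul F hF hFN, Submodule.mem_bot] at hvF
  · rw [hvF]
    exact Submodule.zero_mem _
  · intro g h x hx
    have h1 := hc (g.restrictNormal _) (h.restrictNormal _)
    have h2 := congrArg Subtype.val (DFunLike.congr_fun h1 (⟨x, hFM hx⟩ : mf (rho ℚ_[p]) (KK ℚ_[p] ι hmul)))
    have h3 : ∀ (g : Ω ≃ₐ[ℚ] Ω) (y : mf (rho ℚ_[p]) (KK ℚ_[p] ι hmul)),
        ((g.restrictNormal (mf (rho ℚ_[p]) (KK ℚ_[p] ι hmul)) y : mf (rho ℚ_[p]) (KK ℚ_[p] ι hmul)) : Ω) = g y := fun g y =>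
      AlgEquiv.restrictNormal_commutes g _ y
    rw [AlgEquiv.mul_apply, AlgEquiv.mul_apply, h3, h3, h3, h3] at h2
    exact h2

end Unit

end Pool.Agent.Q280.SF
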